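import Pool.Agent.Run7.h422.SC.Lift
import Pool.Agent.TH583.FO.Avg

set_option autoImplicit false
set_option linter.unusedSectionVars false

/-!
The cubic case: a perfect matching of small weight and an average over twelve choices.
-/

namespace Run7.h422.SC

open Finset Pool.Agent.H160R2.HF
open Pool.Agent.Helper879.ECD (F2 IsFlow cn)
open Pool.Agent.H126R2.CDC (IsFl isFl_iff)
open Pool.Agent.N175.OC

variable {V E : Type} [Fintype V] [DecidableEq V] [Fintype E] [DecidableEq E]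

/-- a light perfect matching with exactly one edge in every cut of size three -/
theorem exists_matching (G : OrGraph V E) (hc : G.Cubic) (hb : G.Bridgeless) (w : E → ℝ)
    (hw : ∀ e, 0 ≤ w e) :
    ∃ M : Finset E, Pool.Agent.H249R2.PM.IsPM G.t G.h M ∧
      (∀ X : Finset V, (G.cut X).card = 3 → (G.cut X ∩ M).card = 1) ∧
      ∑ e ∈ M, w e ≤ (1 / 3) * ∑ e, w e := by
  classical
  obtain ⟨R, hR⟩ : ∃ R : ℝ, R = ∑ e, w e := ⟨_, rfl⟩
  have hR0 : 0 ≤ R := by rw [hR]; exact Finset.sum_nonneg fun e _ => hw e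
  obtain ⟨T, hT⟩ : ∃ T : Finset (Finset V), T = univ.filter fun X => (G.cut X).card = 3 := ⟨_, rfl⟩
  have hTodd : ∀ X ∈ T, Odd X.card := by
    intro X hX
    rw [hT, Finset.mem_filter] at hX
    have h := G.handshake univ X
    rw [Finset.sum_congr rfl (fun v _ => hc v), Finset.sum_const, smul_eq_mul,
      Finset.inter_univ, hX.2] at h
    by_contra hcon
    rw [Nat.not_odd_iff_even] at hcon
    obtain ⟨m, hm⟩ := hcon
    omega
  obtain ⟨M, hM, _, hcost⟩ := Pool.Agent.H249R2.PM.round (Fintype.card V) V rfl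
    (Pool.Agent.TH583.FO.even_card G hc)
    G.t G.h (fun _ => (1 / 3 : ℝ)) (fun e => w e +
      (R + 1) * ∑ X ∈ T, (if e ∈ G.cut X then (1 : ℝ) else 0)) (Pool.Agent.TH583.FO.fr G hc hb)
  have hall : univ.filter (fun e => G.t e ≠ G.h e) = univ :=
    Finset.filter_true_of_mem fun e _ => Pool.Agent.TH583.FO.noloop G hc hb e
  have hsum : ∀ P : Finset E, ∑ e ∈ P, (w e +
      (R + 1) * ∑ X ∈ T, (if e ∈ G.cut X then (1 : ℝ) else 0)) =
      ∑ e ∈ P, w e + (R + 1) * ∑ X ∈ T, ((G.cut X ∩ P).card : ℝ) := by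
    intro P
    rw [Finset.sum_add_distrib, ← Finset.mul_sum, Finset.sum_comm]
    congr 2
    refine Finset.sum_congr rfl fun S _ => ?_
    rw [Finset.sum_boole]
    congr 2
    ext e
    simp [and_comm]
  rw [hall, ← Finset.sum_mul, hsum, hsum] at hcost
  simp only [Finset.inter_univ] at hcost
  have hT3 : ∑ X ∈ T, ((G.cut X).card : ℝ) = 3 * T.card := by
    rw [Finset.sum_congr rfl (fun X hX => ?_), Finset.sum_const, nsmul_eq_mul, mul_comm]
    rw [hT, Finset.mem_filter] at hX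
    rw [hX.2]; norm_num
  have h1 : (∑ e ∈ M, w e) + (R + 1) * ∑ X ∈ T, (((G.cut X ∩ M).card : ℝ) - 1) ≤ R / 3 := by
    have e2 : ∑ X ∈ T, (((G.cut X ∩ M).card : ℝ) - 1) =
        ∑ X ∈ T, ((G.cut X ∩ M).card : ℝ) - T.card := by
      rw [Finset.sum_sub_distrib, Finset.sum_const, nsmul_eq_mul, mul_one]
    rw [e2]
    rw [hT3, ← hR] at hcost
    nlinarith [hcost]
  have hpos : ∀ S : Finset V, Odd S.card → (0 : ℝ) ≤ ((G.cut S ∩ M).card : ℝ) - 1 := by
    intro S hS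
    have h : (1 : ℝ) ≤ (G.cut S ∩ M).card := by
      exact_mod_cast Pool.Agent.TH583.FO.out_pos G hM S hS
    linarith
  have hA : 0 ≤ ∑ e ∈ M, w e := Finset.sum_nonneg fun e _ => hw e
  have hB : 0 ≤ ∑ X ∈ T, (((G.cut X ∩ M).card : ℝ) - 1) :=
    Finset.sum_nonneg fun X hX => hpos X (hTodd X hX)
  refine ⟨M, hM, ?_, ?_⟩
  · intro X hX
    have hXT : X ∈ T := by rw [hT, Finset.mem_filter]; exact ⟨Finset.mem_univ _, hX⟩
    have h2 : ((G.cut X ∩ M).card : ℝ) - 1 ≤ ∑ X ∈ T, (((G.cut X ∩ M).card : ℝ) - 1) :=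
      Finset.single_le_sum (f := fun X => ((G.cut X ∩ M).card : ℝ) - 1)
        (fun X hX => hpos X (hTodd X hX)) hXT
    have h3 : ((G.cut X ∩ M).card : ℝ) < 2 := by
      by_contra hcon
      have h7 : (1 : ℝ) ≤ ∑ X ∈ T, (((G.cut X ∩ M).card : ℝ) - 1) := by linarith
      nlinarith
    have h4 : (G.cut X ∩ M).card < 2 := by exact_mod_cast h3
    have h5 := Pool.Agent.TH583.FO.out_pos G hM X (hTodd X hXT)
    omega
  · rw [← hR]
    have : 0 ≤ (R + 1) * ∑ X ∈ T, (((G.cut X ∩ M).card : ℝ) - 1) :=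
      mul_nonneg (by linarith) hB
    linarith

/-- an edge set with even degrees is a flow modulo two -/
theorem fl_of_even (K : OrGraph V E) (D : Finset E) (h : ∀ v, Even (K.deg D v)) :
    IsFl (hv K) (fun e => if e ∈ D then 1 else 0) := by
  intro w
  have h1 := (ZMod.natCast_eq_zero_iff_even).2 (h w)
  refine Eq.trans ?_ h1
  rw [Fintype.sum_prod_type]
  unfold OrGraph.deg
  rw [Nat.cast_add, Finset.card_filter, Finset.card_filter, Nat.cast_sum, Nat.cast_sum,
    ← Finset.sum_add_distrib, ← Finset.sum_filter_add_sum_filter_not univ (fun e => e ∈ D)]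
  have h2 : ∑ e ∈ univ.filter (fun e => ¬ e ∈ D), ∑ b : Bool,
      (if hv K (e, b) = w then (if e ∈ D then (1 : F2) else 0) else 0) = 0 := by
    refine Finset.sum_eq_zero fun e he => ?_
    rw [Finset.mem_filter] at he
    simp [he.2]
  rw [h2, add_zero, Finset.filter_mem_eq_inter, Finset.univ_inter]
  refine Finset.sum_congr rfl fun e he => ?_
  rw [Fintype.sum_bool]
  simp only [hv, he, if_true]
  push_cast
  simp [add_comm]

theorem fl_mul (K : OrGraph V E) (α : F2) (f : E → F2) (hf : IsFl (hv K) f) :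
    IsFl (hv K) (fun e => α * f e) := by
  intro w
  have h := congrArg (fun x => α * x) (hf w)
  simp only [mul_zero, Finset.mul_sum] at h
  refine Eq.trans ?_ h
  refine Finset.sum_congr rfl fun e _ => ?_
  by_cases h1 : hv K e = w
  · simp [h1]
  · simp [h1]

/-- the twelve choices -/
abbrev Ch := F2 × F2 × Fin 3

def l₁ : Fin 3 → F2
  | 0 => 1
  | 1 => 0
  | 2 => 1

def l₂ : Fin 3 → F2
  | 0 => 0
  | 1 => 1
  | 2 => 1

/-- the third flow -/
def zz (c : Ch) (a₁ a₂ f : F2) : F2 :=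
  l₁ c.2.2 * (a₁ + c.1 * f) + l₂ c.2.2 * (a₂ + c.2.1 * f) + f

/-- the edge is doubled -/
def dbl (c : Ch) (a₁ a₂ f : F2) : Prop :=
  (a₁ + c.1 * f ≠ 0 ∨ a₂ + c.2.1 * f ≠ 0) ∧ zz c a₁ a₂ f ≠ 0

instance (c : Ch) (a₁ a₂ f : F2) : Decidable (dbl c a₁ a₂ f) := by
  unfold dbl; infer_instance

theorem cnt_M : ∀ a₁ a₂ : F2, (a₁ ≠ 0 ∨ a₂ ≠ 0) →
    (univ.filter (fun c : Ch => dbl c a₁ a₂ 0)).card = 8 := by decide

theorem cnt_F : ∀ a₁ a₂ : F2, (univ.filter (fun c : Ch => dbl c a₁ a₂ 1)).card = 3 := by decide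

theorem val_ok : ∀ (c : Ch) (a₁ a₂ f : F2), (f = 0 → a₁ ≠ 0 ∨ a₂ ≠ 0) →
    (if a₁ + c.1 * f ≠ 0 ∨ a₂ + c.2.1 * f ≠ 0 then 1 else 0) +
      (if zz c a₁ a₂ f ≠ 0 then 1 else 0) = if dbl c a₁ a₂ f then 2 else 1 := by decide +kernel

theorem cubic (G : OrGraph V E) (hc : G.Cubic) (hb : G.Bridgeless) (w : E → ℝ)
    (hw : ∀ e, 0 ≤ w e) :
    ∃ D : Finset E, ∑ e ∈ D, w e ≤ (7 / 18) * ∑ e, w e ∧
      CovI G (Fin 4 ⊕ (Unit ⊕ Unit)) (fun e => if e ∈ D then 2 else 1) := by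
  classical
  obtain ⟨M, hM, hM3, hMw⟩ := exists_matching G hc hb w hw
  obtain ⟨a₁, a₂, h1, h2, h12⟩ := two_flows G Mᶜ (by
    intro X hX
    have hsub : G.cut X ⊆ M := by
      intro e he
      by_contra hne
      have : e ∈ G.cut X ∩ Mᶜ := Finset.mem_inter.2 ⟨he, Finset.mem_compl.2 hne⟩
      rw [hX] at this
      exact absurd this (Finset.notMem_empty _)
    refine ⟨G.cut_card_ne_one hb X, fun h3 => ?_⟩
    have h4 := hM3 X h3
    rw [Finset.inter_eq_left.2 hsub, h3] at h4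
    omega)
  have h1' : IsFl (hv G) a₁ := (isFl_iff _ _).2 h1
  have h2' : IsFl (hv G) a₂ := (isFl_iff _ _).2 h2
  obtain ⟨f, hf⟩ : ∃ f : E → F2, f = fun e => if e ∈ Mᶜ then 1 else 0 := ⟨_, rfl⟩
  have hfl : IsFl (hv G) f := by
    rw [hf]
    apply fl_of_even
    intro v
    have h1 := hc v
    have h2 := Pool.Agent.TH583.FO.deg_pm G hM v
    unfold OrGraph.deg at h1 h2 ⊢
    have h3 : ∀ k : E → V, (univ.filter (fun e => k e = v)).card =
        (M.filter (fun e => k e = v)).card + (Mᶜ.filter (fun e => k e = v)).card := by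
      intro k
      rw [← Finset.card_union_of_disjoint]
      · rw [← Finset.filter_union, Finset.union_compl]
      · exact Finset.disjoint_filter_filter (disjoint_compl_right)
    rw [h3, h3] at h1
    exact ⟨1, by omega⟩
  have hfM : ∀ e, e ∈ M → f e = 0 := by
    intro e he
    rw [hf]
    simp [he]
  have hfF : ∀ e, e ∉ M → f e = 1 := by
    intro e he
    rw [hf]
    simp [he]
  have hor : ∀ e, f e = 0 → a₁ e ≠ 0 ∨ a₂ e ≠ 0 := by
    intro e he
    apply h12 e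
    rw [Finset.mem_compl, not_not]
    by_contra hne
    rw [hfF e hne] at he
    exact absurd he (by decide)
  obtain ⟨D, hD⟩ : ∃ D : Ch → Finset E, D = fun c =>
    univ.filter (fun e => dbl c (a₁ e) (a₂ e) (f e)) := ⟨_, rfl⟩
  have hcnt : ∑ c : Ch, ∑ e ∈ D c, w e = 8 * (∑ e ∈ M, w e) + 3 * ∑ e ∈ Mᶜ, w e := by
    have h5 : ∀ c : Ch, ∑ e ∈ D c, w e =
        ∑ e, (if dbl c (a₁ e) (a₂ e) (f e) then w e else 0) := by
      intro c
      rw [hD, Finset.sum_filter]
    rw [Finset.sum_congr rfl (fun c _ => h5 c), Finset.sum_comm, Finset.mul_sum, Finset.mul_sum,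
      ← Finset.sum_add_sum_compl M]
    congr 1
    · refine Finset.sum_congr rfl fun e he => ?_
      rw [← Finset.sum_filter, Finset.sum_const, nsmul_eq_mul, hfM e he,
        cnt_M _ _ (hor e (hfM e he))]
      norm_num
    · refine Finset.sum_congr rfl fun e he => ?_
      rw [← Finset.sum_filter, Finset.sum_const, nsmul_eq_mul,
        hfF e (Finset.mem_compl.1 he), cnt_F]
      norm_num
  have hMc : ∑ e ∈ M, w e + ∑ e ∈ Mᶜ, w e = ∑ e, w e := Finset.sum_add_sum_compl M _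
  obtain ⟨c, -, hcw⟩ : ∃ c ∈ (univ : Finset Ch), ∑ e ∈ D c, w e ≤ (7 / 18) * ∑ e, w e := by
    apply Finset.exists_le_of_sum_le (Finset.univ_nonempty)
    rw [hcnt, Finset.sum_const, nsmul_eq_mul]
    have h6 : ((univ : Finset Ch).card : ℝ) = 12 := by
      have : (univ : Finset Ch).card = 12 := by decide
      rw [this]; norm_num
    rw [h6]
    linarith
  refine ⟨D c, hcw, ?_⟩
  have g1 : IsFl (hv G) (fun e => a₁ e + c.1 * f e) := fl_add G _ _ h1' (fl_mul G _ _ hfl)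
  have g2 : IsFl (hv G) (fun e => a₂ e + c.2.1 * f e) := fl_add G _ _ h2' (fl_mul G _ _ hfl)
  have g3 : IsFl (hv G) (fun e => zz c (a₁ e) (a₂ e) (f e)) :=
    fl_add G _ _ (fl_add G _ _ (fl_mul G _ _ g1) (fl_mul G _ _ g2)) hfl
  refine ((cov_four G _ _ g1 g2).add (cov_both G Unit (fun _ e => zz c (a₁ e) (a₂ e) (f e))
    (fun _ => g3) (fun e => if zz c (a₁ e) (a₂ e) (f e) ≠ 0 then 1 else 0) (by
      intro e
      simp))).congr ?_
  intro e
  rw [val_ok c _ _ _ (hor e), hD]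
  simp only [Finset.mem_filter, Finset.mem_univ, true_and]

end Run7.h422.SC
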