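import Pool.Agent.Run7.h422.SC.Cub
import Pool.Agent.N175.OC.Simple

set_option autoImplicit false
set_option linter.unusedSectionVars false

/-!
From a bridgeless graph to a bridgeless cubic graph: every vertex is replaced by a circuit.
-/

namespace Run7.h422.SC

open Finset Pool.Agent.H160R2.HF
open Pool.Agent.Helper879.ECD (F2 IsFlow cn)
open Pool.Agent.N175.OC

/-- a permutation whose orbits are the fibres of `v` -/
theorem exists_nu {H V : Type} [Fintype H] [DecidableEq H] [DecidableEq V] (v : H → V) :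
    ∃ ν : H ≃ H, (∀ x, v (ν x) = v x) ∧
      ∀ P : H → Prop, (∀ x, P (ν x) ↔ P x) → ∀ x y, v x = v y → (P x ↔ P y) := by
  have h0 : ∀ w : V, ∃ f : Equiv.Perm H, f.IsCycleOn (univ.filter (fun x => v x = w) : Finset H) ∧
      f.support ⊆ (univ.filter (fun x => v x = w) : Finset H) := fun w => Finset.exists_cycleOn _
  choose f hf _ using h0
  have hmem : ∀ x, x ∈ (univ.filter (fun y => v y = v x) : Finset H) := by
    intro x; simp
  have hv : ∀ x, v (f (v x) x) = v x := by
    intro x
    have h1 := (hf (v x)).1.mapsTo (Finset.mem_coe.2 (hmem x))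
    simpa using h1
  have hinj : Function.Injective (fun x => f (v x) x) := by
    intro x y hxy
    have hxy' : f (v x) x = f (v y) y := hxy
    have h1 : v x = v y := by rw [← hv x, ← hv y, hxy']
    rw [h1] at hxy'
    exact (f (v y)).injective hxy'
  refine ⟨Equiv.ofBijective _ (Finite.injective_iff_bijective.1 hinj), hv, ?_⟩
  intro P hP x y hxy
  obtain ⟨n, -, hn⟩ := (hf (v x)).exists_pow_eq (hmem x) (by simp [hxy] : y ∈ _)
  have h2 : ∀ n : ℕ, (P (((f (v x)) ^ n) x) ↔ P x) ∧ v (((f (v x)) ^ n) x) = v x := by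
    intro n
    induction n with
    | zero => simp
    | succ n ih =>
      rw [pow_succ', Equiv.Perm.mul_apply]
      have h3 := hP (((f (v x)) ^ n) x)
      have h4 := hv (((f (v x)) ^ n) x)
      rw [Equiv.ofBijective_apply] at h3
      simp only [ih.2] at h3 h4
      exact ⟨h3.trans ih.1, h4⟩
  rw [← hn]
  exact (h2 n).1.symm

variable {V E : Type} [Fintype V] [DecidableEq V] [Fintype E] [DecidableEq E]

theorem bridgeless_of_cut (G : OrGraph V E) (h : ∀ X : Finset V, (G.cut X).card ≠ 1) :
    G.Bridgeless := by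
  classical
  intro e
  by_contra hcon
  apply h (univ.filter (fun v => (G.sub (univ.erase e)).Reachable (G.t e) v))
  rw [Finset.card_eq_one]
  refine ⟨e, ?_⟩
  ext e'
  unfold OrGraph.cut
  simp only [Finset.mem_filter, Finset.mem_univ, true_and, Finset.mem_singleton]
  constructor
  · intro h1
    by_contra hne
    apply h1
    by_cases h2 : G.t e' = G.h e'
    · rw [h2]
    · have h3 : (G.sub (univ.erase e)).Reachable (G.t e') (G.h e') := by
        apply SimpleGraph.Adj.reachable
        rw [OrGraph.sub, SimpleGraph.fromRel_adj]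
        exact ⟨h2, Or.inl ⟨e', by simp [hne], rfl, rfl⟩⟩
      exact ⟨fun h4 => h4.trans h3, fun h4 => h4.trans h3.symm⟩
  · rintro rfl h1
    exact hcon (h1.1 (SimpleGraph.Reachable.refl _))

/-- every vertex is replaced by a circuit through its half-edges -/
def ex (ν : E × Bool ≃ E × Bool) : OrGraph (E × Bool) (E ⊕ (E × Bool)) where
  t := Sum.elim (fun e => (e, false)) id
  h := Sum.elim (fun e => (e, true)) ν

section sums

variable {α : Type} [AddCommMonoid α] (ν : E × Bool ≃ E × Bool)

theorem s1 (f : E × Bool → α) (y : E × Bool) :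
    (∑ x : E × Bool, if (ex ν).t (Sum.inr x) = y then f x else 0) = f y := by
  rw [Finset.sum_eq_single y]
  · exact if_pos rfl
  · intro z _ hz; exact if_neg hz
  · intro h; exact absurd (mem_univ _) h

theorem s2 (f : E × Bool → α) (y : E × Bool) :
    (∑ x : E × Bool, if (ex ν).h (Sum.inr x) = y then f x else 0) = f (ν.symm y) := by
  rw [Finset.sum_eq_single (ν.symm y)]
  · exact if_pos (ν.apply_symm_apply y)
  · intro z _ hz
    refine if_neg fun h => hz ?_
    rw [← h]
    exact (ν.symm_apply_apply z).symm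
  · intro h; exact absurd (mem_univ _) h

theorem s3 (f : E → α) (e : E) (b : Bool) :
    (∑ x : E, if (ex ν).t (Sum.inl x) = (e, b) then f x else 0) = if b = false then f e else 0 := by
  by_cases hb : b = false
  · subst hb
    rw [if_pos rfl, Finset.sum_eq_single e]
    · exact if_pos rfl
    · intro z _ hz
      exact if_neg fun h => hz (Prod.mk.inj h).1
    · intro h; exact absurd (mem_univ _) h
  · rw [if_neg hb]
    refine Finset.sum_eq_zero fun z _ => ?_
    exact if_neg fun h => hb (Prod.mk.inj h).2.symm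

theorem s4 (f : E → α) (e : E) (b : Bool) :
    (∑ x : E, if (ex ν).h (Sum.inl x) = (e, b) then f x else 0) = if b = true then f e else 0 := by
  by_cases hb : b = true
  · subst hb
    rw [if_pos rfl, Finset.sum_eq_single e]
    · exact if_pos rfl
    · intro z _ hz
      exact if_neg fun h => hz (Prod.mk.inj h).1
    · intro h; exact absurd (mem_univ _) h
  · rw [if_neg hb]
    refine Finset.sum_eq_zero fun z _ => ?_
    exact if_neg fun h => hb (Prod.mk.inj h).2.symm

end sums

theorem ex_cubic (ν : E × Bool ≃ E × Bool) : (ex ν).Cubic := by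
  intro x
  obtain ⟨e, b⟩ := x
  unfold OrGraph.deg
  rw [Finset.card_filter, Finset.card_filter, Fintype.sum_sum_type, Fintype.sum_sum_type,
    s1 ν (fun _ => 1), s2 ν (fun _ => 1), s3 ν (fun _ => 1), s4 ν (fun _ => 1)]
  cases b
  · simp
  · simp

theorem even_change (ν : E × Bool ≃ E × Bool) (X : Finset (E × Bool)) :
    Even (univ.filter (fun x => ¬ (x ∈ X ↔ ν x ∈ X))).card := by
  have hA : (univ.filter (fun x => ¬ (x ∈ X ↔ ν x ∈ X))).card =
      (univ.filter (fun x => x ∈ X ∧ ν x ∉ X)).card +
        (univ.filter (fun x => x ∉ X ∧ ν x ∈ X)).card := by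
    rw [← Finset.card_union_of_disjoint]
    · congr 1
      ext x
      simp only [Finset.mem_filter, Finset.mem_univ, true_and, Finset.mem_union]
      tauto
    · rw [Finset.disjoint_filter]
      rintro x - ⟨h1, -⟩ ⟨h2, -⟩
      exact h2 h1
  have hX : X.card = (univ.filter (fun x => x ∈ X ∧ ν x ∉ X)).card +
      (univ.filter (fun x => x ∈ X ∧ ν x ∈ X)).card := by
    rw [← Finset.card_union_of_disjoint]
    · congr 1
      ext x
      simp only [Finset.mem_filter, Finset.mem_univ, true_and, Finset.mem_union]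
      tauto
    · rw [Finset.disjoint_filter]
      rintro x - ⟨-, h1⟩ ⟨-, h2⟩
      exact h1 h2
  have hY : (univ.filter (fun x => ν x ∈ X)).card =
      (univ.filter (fun x => x ∉ X ∧ ν x ∈ X)).card +
      (univ.filter (fun x => x ∈ X ∧ ν x ∈ X)).card := by
    rw [← Finset.card_union_of_disjoint]
    · congr 1
      ext x
      simp only [Finset.mem_filter, Finset.mem_univ, true_and, Finset.mem_union]
      tauto
    · rw [Finset.disjoint_filter]
      rintro x - ⟨h1, -⟩ ⟨h2, -⟩
      exact h1 h2
  have hXY : (univ.filter (fun x => ν x ∈ X)).card = X.card := by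
    apply Finset.card_bij (fun x _ => ν x)
    · intro x hx; simpa using hx
    · intro x _ y _ h; exact ν.injective h
    · intro y hy
      exact ⟨ν.symm y, by simpa using hy, by simp⟩
  rw [hA]
  exact ⟨(univ.filter (fun x => x ∈ X ∧ ν x ∉ X)).card, by omega⟩

theorem ex_cut (K : OrGraph V E) (hK : ∀ X : Finset V, (K.cut X).card ≠ 1)
    (ν : E × Bool ≃ E × Bool)
    (hν : ∀ P : E × Bool → Prop, (∀ x, P (ν x) ↔ P x) → ∀ x y, hv K x = hv K y → (P x ↔ P y))
    (X : Finset (E × Bool)) : ((ex ν).cut X).card ≠ 1 := by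
  intro h
  have h1 : ((ex ν).cut X).card = (univ.filter (fun e => ¬ ((e, false) ∈ X ↔ (e, true) ∈ X))).card +
      (univ.filter (fun x => ¬ (x ∈ X ↔ ν x ∈ X))).card := by
    unfold OrGraph.cut
    rw [Finset.card_filter, Finset.card_filter, Finset.card_filter, Fintype.sum_sum_type]
    rfl
  obtain ⟨k, hk⟩ := even_change ν X
  have h2 : (univ.filter (fun x => ¬ (x ∈ X ↔ ν x ∈ X))).card = 0 := by omega
  rw [Finset.card_eq_zero, Finset.filter_eq_empty_iff] at h2
  have h3 : ∀ x y, hv K x = hv K y → (x ∈ X ↔ y ∈ X) := hν (fun x => x ∈ X) (fun x => by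
    have := h2 (mem_univ x)
    rw [not_not] at this
    exact this.symm)
  have h4 : ∀ x, hv K x ∈ X.image (hv K) ↔ x ∈ X := by
    intro x
    rw [Finset.mem_image]
    exact ⟨fun ⟨y, hy, hxy⟩ => (h3 y x hxy).1 hy, fun hx => ⟨x, hx, rfl⟩⟩
  apply hK (X.image (hv K))
  have h5 : K.cut (X.image (hv K)) = univ.filter (fun e => ¬ ((e, false) ∈ X ↔ (e, true) ∈ X)) := by
    ext e
    unfold OrGraph.cut
    simp only [Finset.mem_filter, Finset.mem_univ, true_and]
    have h6 := h4 (e, false)
    have h7 := h4 (e, true)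
    simp only [hv, if_true, if_false, Bool.false_eq_true] at h6 h7
    simp only [h6, h7]
  rw [h5]
  omega

theorem ex_flow (K : OrGraph V E) (ν : E × Bool ≃ E × Bool) (hν : ∀ x, hv K (ν x) = hv K x)
    (g : E ⊕ (E × Bool) → ℤ) (hg : (ex ν).IsFlow g) : K.IsFlow (fun e => g (Sum.inl e)) := by
  intro v
  have h1 : ∀ x : E × Bool, (if x.2 = false then g (Sum.inl x.1) else 0) + g (Sum.inr x) =
      (if x.2 = true then g (Sum.inl x.1) else 0) + g (Sum.inr (ν.symm x)) := by
    intro x
    have h2 := hg x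
    obtain ⟨e, b⟩ := x
    rw [Finset.sum_filter, Finset.sum_filter, Fintype.sum_sum_type, Fintype.sum_sum_type,
      s1 ν (fun x => g (Sum.inr x)), s2 ν (fun x => g (Sum.inr x)),
      s3 ν (fun x => g (Sum.inl x)), s4 ν (fun x => g (Sum.inl x))] at h2
    exact h2
  have h2 : ∑ x ∈ univ.filter (fun x => hv K x = v), g (Sum.inr x) =
      ∑ x ∈ univ.filter (fun x => hv K x = v), g (Sum.inr (ν.symm x)) := by
    apply Finset.sum_equiv ν
    · intro x
      simp [hν]
    · intro x _
      simp
  have h3 : ∑ x ∈ univ.filter (fun x => hv K x = v), (if x.2 = false then g (Sum.inl x.1) else 0) =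
      ∑ e with K.t e = v, g (Sum.inl e) := by
    rw [Finset.sum_filter, Fintype.sum_prod_type, Finset.sum_filter]
    refine Finset.sum_congr rfl fun e _ => ?_
    rw [Fintype.sum_bool]
    simp [hv]
  have h4 : ∑ x ∈ univ.filter (fun x => hv K x = v), (if x.2 = true then g (Sum.inl x.1) else 0) =
      ∑ e with K.h e = v, g (Sum.inl e) := by
    rw [Finset.sum_filter, Fintype.sum_prod_type, Finset.sum_filter]
    refine Finset.sum_congr rfl fun e _ => ?_
    rw [Fintype.sum_bool]
    simp [hv]
  have h5 := Finset.sum_congr (rfl : univ.filter (fun x => hv K x = v) =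
    univ.filter (fun x => hv K x = v)) (fun x _ => h1 x)
  rw [Finset.sum_add_distrib, Finset.sum_add_distrib, h3, h4, h2] at h5
  exact add_right_cancel h5

/-- short covers of bridgeless multigraphs -/
theorem general (K : OrGraph V E) (hK : ∀ X : Finset V, (K.cut X).card ≠ 1) (w : E → ℝ)
    (hw : ∀ e, 0 ≤ w e) :
    ∃ D : Finset E, ∑ e ∈ D, w e ≤ (7 / 18) * ∑ e, w e ∧
      CovI K (Fin 6) (fun e => if e ∈ D then 2 else 1) := by
  classical
  obtain ⟨ν, h1, h2⟩ := exists_nu (hv K)
  obtain ⟨D, hD, g, g1, g2, g3⟩ := cubic (ex ν) (ex_cubic ν)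
    (bridgeless_of_cut _ (ex_cut K hK ν h2)) (Sum.elim w (fun _ => 0)) (by
      rintro (e | x)
      · exact hw e
      · exact le_rfl)
  refine ⟨univ.filter (fun e => Sum.inl e ∈ D), ?_, ?_⟩
  · have e1 : ∑ e, (Sum.elim w (fun _ => 0) : E ⊕ (E × Bool) → ℝ) e = ∑ e, w e := by
      rw [Fintype.sum_sum_type]
      simp
    have e2 : ∑ e ∈ D, (Sum.elim w (fun _ => 0) : E ⊕ (E × Bool) → ℝ) e =
        ∑ e ∈ univ.filter (fun e => Sum.inl e ∈ D), w e := by
      rw [← Finset.univ_inter D, ← Finset.filter_mem_eq_inter, Finset.sum_filter,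
        Fintype.sum_sum_type, Finset.sum_filter]
      simp
    rw [← e1, ← e2]
    exact hD
  · have h3 : CovI K (Fin 4 ⊕ (Unit ⊕ Unit))
        (fun e => if e ∈ univ.filter (fun e => Sum.inl e ∈ D) then 2 else 1) := by
      refine ⟨fun i e => g i (Sum.inl e), fun i => ex_flow K ν h1 (g i) (g1 i),
        fun i e => g2 i _, fun e => ?_⟩
      simp only [Finset.mem_filter, Finset.mem_univ, true_and]
      exact g3 (Sum.inl e)
    exact h3.equiv (Fintype.equivOfCardEq (by simp))

end Run7.h422.SC
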