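import Pool.Agent.N175.OC.Cov

set_option autoImplicit false
set_option linter.unusedSectionVars false

/-!
Flows modulo two of the contraction of an edge set `F` extend to flows modulo two of the graph.
-/

namespace Run7.h422.SC

open Finset Pool.Agent.H160R2.HF
open Pool.Agent.Helper879.ECD (F2 IsFlow inc fnl fnl_inc sp mem_sp exists_coeff cn f2_add_self)

variable {V E : Type} [Fintype V] [DecidableEq V] [Fintype E] [DecidableEq E]

/-- a flow of the contraction of the edges of `F` extends to a flow of the graph -/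
theorem exists_lift (a b : E → V) (F : Finset E) (ρ : V → V)
    (hρ : ∀ c : V → F2, (∀ e ∈ F, c (a e) = c (b e)) → ∀ v, c (ρ v) = c v)
    (ψ : E → F2) (hψ : IsFlow (fun e => ρ (a e)) (fun e => ρ (b e)) ψ) :
    ∃ φ : E → F2, IsFlow a b φ ∧ ∀ e, e ∉ F → φ e = ψ e := by
  have hu : (∑ e ∈ Fᶜ, ψ e • inc a b e) ∈ sp F2 (inc a b) F := by
    by_contra hcon
    obtain ⟨f, hf1, hf2⟩ := Submodule.exists_dual_map_eq_bot_of_notMem hcon inferInstance
    apply hf1
    have hinc : ∀ e, f (inc a b e) = f (Pi.single (a e) 1) + f (Pi.single (b e) 1) := by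
      intro e
      unfold inc
      rw [map_add]
    have hc : ∀ e ∈ F, f (Pi.single (a e) 1) = f (Pi.single (b e) 1) := by
      intro e he
      have h1 : f (inc a b e) ∈ Submodule.map f (sp F2 (inc a b) F) :=
        Submodule.mem_map_of_mem (mem_sp he)
      rw [hf2, Submodule.mem_bot, hinc] at h1
      have h2 : ∀ x y : F2, x + y = 0 → x = y := by decide
      exact h2 _ _ h1
    have hr := hρ (fun v => f (Pi.single v 1)) hc
    have h3 := hψ (fun v => f (Pi.single v 1))
    simp only [hr] at h3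
    rw [map_sum]
    have h4 : ∑ e ∈ F, ψ e * (f (Pi.single (a e) 1) + f (Pi.single (b e) 1)) = 0 := by
      refine Finset.sum_eq_zero fun e he => ?_
      rw [hc e he, f2_add_self, mul_zero]
    rw [← Finset.sum_add_sum_compl F, h4, zero_add] at h3
    rw [← h3]
    refine Finset.sum_congr rfl fun e _ => ?_
    rw [map_smul, hinc, smul_eq_mul]
  obtain ⟨c, hc⟩ := exists_coeff hu
  refine ⟨fun e => if e ∈ F then c e else ψ e, ?_, fun e he => if_neg he⟩
  intro d
  have h1 : ∑ e, (if e ∈ F then c e else ψ e) • inc a b e = 0 := by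
    rw [← Finset.sum_add_sum_compl F]
    have h2 : ∑ e ∈ F, (if e ∈ F then c e else ψ e) • inc a b e = ∑ e ∈ F, c e • inc a b e :=
      Finset.sum_congr rfl fun e he => by rw [if_pos he]
    have h3 : ∑ e ∈ Fᶜ, (if e ∈ F then c e else ψ e) • inc a b e = ∑ e ∈ Fᶜ, ψ e • inc a b e :=
      Finset.sum_congr rfl fun e he => by rw [if_neg (Finset.mem_compl.1 he)]
    rw [h2, h3, hc]
    ext w
    exact f2_add_self _
  have h2 := congrArg (fnl d) h1
  rw [map_sum, map_zero] at h2
  refine Eq.trans ?_ h2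
  refine Finset.sum_congr rfl fun e _ => ?_
  rw [map_smul, fnl_inc, smul_eq_mul]

/-- representative of the component of `v` in `(V, F)` -/
noncomputable def rep (G : OrGraph V E) (F : Finset E) (v : V) : V :=
  Quot.out ((G.sub F).connectedComponentMk v)

theorem rep_mk (G : OrGraph V E) (F : Finset E) (v : V) :
    (G.sub F).connectedComponentMk (rep G F v) = (G.sub F).connectedComponentMk v :=
  Quot.out_eq _

theorem rep_eq (G : OrGraph V E) (F : Finset E) {e : E} (he : e ∈ F) :
    rep G F (G.t e) = rep G F (G.h e) := by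
  unfold rep
  by_cases h : G.t e = G.h e
  · rw [h]
  · congr 1
    apply SimpleGraph.ConnectedComponent.sound
    apply SimpleGraph.Adj.reachable
    rw [OrGraph.sub, SimpleGraph.fromRel_adj]
    exact ⟨h, Or.inl ⟨e, he, rfl, rfl⟩⟩

theorem const_of_reachable (G : OrGraph V E) (F : Finset E) {α : Type} (c : V → α)
    (hc : ∀ e ∈ F, c (G.t e) = c (G.h e)) {u v : V} (huv : (G.sub F).Reachable u v) :
    c u = c v := by
  obtain ⟨p⟩ := huv
  induction p with
  | nil => rfl
  | cons hab _ ih =>
    rw [← ih]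
    rw [OrGraph.sub, SimpleGraph.fromRel_adj] at hab
    rcases hab.2 with ⟨e, he, h1, h2⟩ | ⟨e, he, h1, h2⟩
    · rw [← h1, ← h2]; exact hc e he
    · rw [← h1, ← h2]; exact (hc e he).symm

theorem rep_const (G : OrGraph V E) (F : Finset E) (c : V → F2)
    (hc : ∀ e ∈ F, c (G.t e) = c (G.h e)) (v : V) : c (rep G F v) = c v :=
  const_of_reachable G F c hc (SimpleGraph.ConnectedComponent.exact (rep_mk G F v))

/-- the lifting lemma for a graph whose contraction has no cut of size one or three -/
theorem two_flows (G : OrGraph V E) (F : Finset E)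
    (hF : ∀ X : Finset V, G.cut X ∩ F = ∅ → (G.cut X).card ≠ 1 ∧ (G.cut X).card ≠ 3) :
    ∃ a₁ a₂ : E → F2, IsFlow G.t G.h a₁ ∧ IsFlow G.t G.h a₂ ∧
      ∀ e, e ∉ F → a₁ e ≠ 0 ∨ a₂ e ≠ 0 := by
  have hcut : ∀ X : Finset V, cn (fun e => rep G F (G.t e)) (fun e => rep G F (G.h e)) univ X =
      (G.cut (univ.filter (fun v => rep G F v ∈ X))).card := by
    intro X
    unfold cn OrGraph.cut
    congr 1
    ext e
    simp
  obtain ⟨ψ₁, ψ₂, h0, h1, h2⟩ := Pool.Agent.Helper879.ECD.exists_flow _
    (fun e => rep G F (G.t e)) (fun e => rep G F (G.h e)) rfl (by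
      intro X
      rw [hcut]
      apply hF
      rw [Finset.eq_empty_iff_forall_notMem]
      intro e he
      rw [Finset.mem_inter] at he
      unfold OrGraph.cut at he
      rw [Finset.mem_filter] at he
      apply he.1.2
      simp only [Finset.mem_filter, Finset.mem_univ, true_and]
      rw [rep_eq G F he.2])
  obtain ⟨a₁, k1, l1⟩ := exists_lift G.t G.h F (rep G F) (rep_const G F) ψ₁ h1
  obtain ⟨a₂, k2, l2⟩ := exists_lift G.t G.h F (rep G F) (rep_const G F) ψ₂ h2
  refine ⟨a₁, a₂, k1, k2, fun e he => ?_⟩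
  rw [l1 e he, l2 e he]
  exact h0 e

end Run7.h422.SC
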