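import Pool.Agent.Run7.h422.SC.Expand

set_option autoImplicit false
set_option linter.unusedSectionVars false

/-!
From circulations to lists of directed cycles; the total length.
-/

namespace Run7.h422.SC

open Finset Pool.Agent.H160R2.HF
open Pool.Agent.N175.OC
open Pool.Agent.TH505.OCDC (tot ind ind_pos ind_neg tot_nil tot_append dc dc_nil dc_cons dc_adj)

/-- from circulations to lists of cycles -/
theorem to_lists {V : Type} [Fintype V] [DecidableEq V] (S : SimpleGraph V) [Fintype S.edgeSet]
    [DecidableEq S.edgeSet] {n : ℕ} {p : S.edgeSet → ℕ} (h : CovI (orient S) (Fin n) p) :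
    ∃ C : Fin n → List (Σ v : V, S.Walk v v), (∀ i, ∀ c ∈ C i, c.2.IsCycle) ∧
      (∀ i u v, tot (C i) u v + tot (C i) v u ≤ 1) ∧
      ∀ u v (huv : S.Adj u v), ∑ i, tot (C i) u v = p ⟨s(u, v), huv⟩ := by
  obtain ⟨g, h1, h2, h3⟩ := h
  choose C hC1 hC2 hC3 using fun i => lists S (orient S) (orient_adj S) (orient_uniq S) (g i)
    (h1 i) (h2 i)
  have hi : ∀ (x : ℤ) (c : ℤ), ind (x = c) = if x = c then 1 else 0 := by
    intro x c
    by_cases h : x = c
    · rw [ind_pos h, if_pos h]
    · rw [ind_neg h, if_neg h]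
  refine ⟨C, hC1, ?_, ?_⟩
  · intro i u v
    by_cases huv : S.Adj u v
    · obtain ⟨e, he, -⟩ := orient_uniq S u v huv
      have h4 : ind (g i e = 1) + ind (g i e = -1) ≤ 1 := by
        rw [hi, hi]
        rcases h2 i e with h | h | h <;> rw [h] <;> norm_num
      rcases he with he | he
      · rw [(hC3 i u v e).1 he, (hC3 i v u e).2 ⟨he.2, he.1⟩]
        exact h4
      · rw [(hC3 i u v e).2 he, (hC3 i v u e).1 ⟨he.2, he.1⟩, add_comm]
        exact h4
    · rw [hC2 i u v huv, hC2 i v u (fun h => huv h.symm)]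
      norm_num
  · intro u v huv
    obtain ⟨e, he, hu⟩ := orient_uniq S u v huv
    have hee : e = ⟨s(u, v), huv⟩ := by
      apply Subtype.ext
      show e.1 = s(u, v)
      rw [← orient_mk S e]
      rcases he with ⟨h4, h5⟩ | ⟨h4, h5⟩
      · rw [h4, h5]
      · rw [h4, h5, Sym2.eq_swap]
    rw [← hee]
    rcases he with he | he
    · rw [← (h3 e).1]
      exact Finset.sum_congr rfl fun i _ => by rw [(hC3 i u v e).1 he, hi]
    · rw [← (h3 e).2]
      exact Finset.sum_congr rfl fun i _ => by rw [(hC3 i u v e).2 he, hi]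

theorem tot_flatten {V : Type} {S : SimpleGraph V} (u v : V) :
    ∀ L : List (List (Σ v : V, S.Walk v v)), tot L.flatten u v = (L.map (fun C => tot C u v)).sum
  | [] => rfl
  | C :: L => by rw [List.flatten_cons, tot_append, tot_flatten u v L, List.map_cons, List.sum_cons]

theorem length_eq {V : Type} [Fintype V] {S : SimpleGraph V} {x y : V} (p : S.Walk x y) :
    p.length = ∑ u, ∑ v, dc p u v := by
  classical
  induction p with
  | nil => simp [dc_nil]
  | @cons a b c h p ih =>
    rw [SimpleGraph.Walk.length_cons, ih]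
    simp only [dc_cons, Finset.sum_add_distrib]
    have h1 : ∑ u, ∑ v, (if a = u ∧ b = v then (1 : ℕ) else 0) = 1 := by
      rw [Finset.sum_eq_single a]
      · simp
      · intro u _ hu
        exact Finset.sum_eq_zero fun v _ => if_neg fun h => hu h.1.symm
      · intro h; exact absurd (mem_univ _) h
    rw [h1]
    omega

/-- total length of the closed walks of a list -/
def totalLength {V : Type} {S : SimpleGraph V} (C : List (Σ v : V, S.Walk v v)) : ℕ :=
  (C.map (fun c => c.2.length)).sum

theorem totalLength_eq {V : Type} [Fintype V] {S : SimpleGraph V} :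
    ∀ C : List (Σ v : V, S.Walk v v), totalLength C = ∑ u, ∑ v, tot C u v := by
  intro C
  induction C with
  | nil => simp [totalLength, tot_nil]
  | cons c C ih =>
    have h1 : totalLength (c :: C) = c.2.length + totalLength C := by
      simp [totalLength]
    have h2 : ∀ u v, tot (c :: C) u v = dc c.2 u v + tot C u v := by
      intro u v
      simp [tot]
    rw [h1, ih, length_eq]
    simp only [h2, Finset.sum_add_distrib]

theorem tot_nonadj {V : Type} {S : SimpleGraph V} {u v : V} (h : ¬ S.Adj u v) :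
    ∀ C : List (Σ v : V, S.Walk v v), tot C u v = 0 := by
  intro C
  induction C with
  | nil => rfl
  | cons c C ih =>
    have h2 : tot (c :: C) u v = dc c.2 u v + tot C u v := by
      simp [tot]
    rw [h2, ih, add_zero]
    by_contra hne
    exact h (dc_adj c.2 (Nat.pos_of_ne_zero hne))

/-- the sum over the ordered pairs of adjacent vertices -/
theorem sum_adj {V : Type} [Fintype V] [DecidableEq V] (S : SimpleGraph V) [DecidableRel S.Adj]
    (p : Sym2 V → ℕ) (f : V → V → ℕ) (hf : ∀ u v, S.Adj u v → f u v = p s(u, v))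
    (hf0 : ∀ u v, ¬ S.Adj u v → f u v = 0) :
    ∑ u, ∑ v, f u v = 2 * ∑ e ∈ S.edgeFinset, p e := by
  have h1 : ∑ u, ∑ v, f u v = ∑ x ∈ univ.filter (fun x : V × V => S.Adj x.1 x.2), f x.1 x.2 := by
    rw [← Finset.univ_product_univ, ← Finset.sum_product', Finset.sum_filter]
    refine Finset.sum_congr rfl fun x _ => ?_
    by_cases h : S.Adj x.1 x.2
    · rw [if_pos h]
    · rw [if_neg h, hf0 _ _ h]
  have h2 : ∑ x ∈ univ.filter (fun x : V × V => S.Adj x.1 x.2), f x.1 x.2 =
      ∑ d : S.Dart, p d.edge := by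
    symm
    apply Finset.sum_bij (fun (d : S.Dart) _ => (d.fst, d.snd))
    · intro d _
      simp [d.adj]
    · intro d _ d' _ h
      ext
      · exact (Prod.mk.inj h).1
      · exact (Prod.mk.inj h).2
    · rintro ⟨u, v⟩ h
      exact ⟨⟨(u, v), (Finset.mem_filter.1 h).2⟩, mem_univ _, rfl⟩
    · intro d _
      exact (hf d.fst d.snd d.adj).symm
  rw [h1, h2, ← Finset.sum_fiberwise_of_maps_to (s := univ) (t := S.edgeFinset)
    (g := fun d : S.Dart => d.edge) (fun d _ => by
      rw [SimpleGraph.mem_edgeFinset]; exact d.edge_mem), Finset.mul_sum]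
  refine Finset.sum_congr rfl fun e he => ?_
  rw [Finset.sum_congr rfl (fun d hd => by rw [(Finset.mem_filter.1 hd).2]), Finset.sum_const,
    S.dart_edge_fiber_card e (by rwa [← SimpleGraph.mem_edgeFinset]), smul_eq_mul]

end Run7.h422.SC
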